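import Pool.Agent.SGK.Stmts

/-! Squad SGK, row KXM: the contour of a canonical sequence is increasing for the horizontal order. -/

namespace Pool.Agent.SGK.H45

open Pool.Agent.SGE Pool.Agent.SGK

theorem kxm : KxmStmt := by
  intro V a b C S h
  induction h with
  | base h =>
    refine List.pairwise_pair.2 ?_
    exact Relation.TransGen.single (Or.inl ⟨rfl, rfl⟩)
  | @step P Q mid p q v S h ha hb hv ih =>
    have mono : ∀ u w, HX a b S u w → HX a b ((v, p :: (mid ++ [q])) :: S) u w := by
      intro u w huw
      have hle : GX a b S ≤ GX a b ((v, p :: (mid ++ [q])) :: S) := by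
        rintro x y (hxy | ⟨l, hl, hx⟩ | ⟨l, hl, hx⟩)
        · exact Or.inl hxy
        · exact Or.inr (Or.inl ⟨l, List.mem_cons_of_mem _ hl, hx⟩)
        · exact Or.inr (Or.inr ⟨l, List.mem_cons_of_mem _ hl, hx⟩)
      exact Relation.TransGen.mono hle u w huw
    have hpv : HX a b ((v, p :: (mid ++ [q])) :: S) p v :=
      Relation.TransGen.single (Or.inr (Or.inl ⟨p :: (mid ++ [q]), List.mem_cons_self, rfl⟩))
    have hvq : HX a b ((v, p :: (mid ++ [q])) :: S) v q := by
      refine Relation.TransGen.single (Or.inr (Or.inr ⟨p :: (mid ++ [q]), List.mem_cons_self, ?_⟩))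
      rw [← List.cons_append, List.getLast?_append]
      simp
    have tr : ∀ {x y z}, HX a b ((v, p :: (mid ++ [q])) :: S) x y →
        HX a b ((v, p :: (mid ++ [q])) :: S) y z → HX a b ((v, p :: (mid ++ [q])) :: S) x z :=
      fun h1 h2 => Relation.TransGen.trans h1 h2
    have ih' := ih.imp (mono _ _)
    rw [List.pairwise_append, List.pairwise_cons, List.pairwise_append, List.pairwise_cons] at ih'
    obtain ⟨hP, ⟨hpR, hmid, ⟨hqQ, hQ⟩, hmq⟩, hPR⟩ := ih'
    rw [List.pairwise_append, List.pairwise_cons, List.pairwise_cons, List.pairwise_cons]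
    refine ⟨hP, ⟨?_, ?_, hqQ, hQ⟩, ?_⟩
    · intro y hy
      rcases List.mem_cons.1 hy with rfl | hy
      · exact hpv
      · exact hpR y (List.mem_append_right _ hy)
    · intro y hy
      rcases List.mem_cons.1 hy with rfl | hy
      · exact hvq
      · exact tr hvq (hqQ y hy)
    · intro x hx y hy
      have hxp : HX a b ((v, p :: (mid ++ [q])) :: S) x p := hPR x hx p List.mem_cons_self
      rcases List.mem_cons.1 hy with rfl | hy
      · exact hxp
      rcases List.mem_cons.1 hy with rfl | hy
      · exact tr hxp hpv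
      · exact hPR x hx y (List.mem_cons_of_mem _ (List.mem_append_right _ hy))

end Pool.Agent.SGK.H45
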